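import Mathlib

set_option autoImplicit false

/-!
Packet LV3 for MP_34c247_lc: the asymptotics of the lower bound.
-/

namespace Pool.Agent.Helper17.OneTape

lemma sqrt_facts (n r : ℕ) (hn : 10000 ≤ n) (hr : r = Nat.sqrt n / 4) :
    r * (r + 3) + n / 4 ≤ n / 2 ∧ (n : ℝ) / 64 ≤ (r : ℝ) * (r + 1) / 2 := by
  have h1 : Nat.sqrt n * Nat.sqrt n ≤ n := Nat.sqrt_le n
  have h2 : n < (Nat.sqrt n + 1) * (Nat.sqrt n + 1) := Nat.lt_succ_sqrt n
  have h100 : 100 ≤ Nat.sqrt n := Nat.le_sqrt.2 (by omega)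
  set s := Nat.sqrt n with hs
  have hr1 : 4 * r ≤ s := by omega
  have hr2 : s ≤ 4 * r + 3 := by omega
  have hr25 : 25 ≤ r := by omega
  constructor
  · have h3 : (4 * r) * (4 * r) ≤ n := le_trans (Nat.mul_le_mul hr1 hr1) h1
    have h4 : 25 * r ≤ r * r := Nat.mul_le_mul_right r hr25
    have h5 : r * (r + 3) = r * r + 3 * r := by ring
    have h6 : (4 * r) * (4 * r) = 16 * (r * r) := by ring
    omega
  · have h3 : n < (4 * r + 4) * (4 * r + 4) :=
      lt_of_lt_of_le h2 (Nat.mul_le_mul (by omega) (by omega))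
    have h3' : (n : ℝ) < (4 * r + 4) * (4 * r + 4) := by exact_mod_cast h3
    have h25 : (25 : ℝ) ≤ r := by exact_mod_cast hr25
    nlinarith

theorem asymp (T : ℕ → ℕ) (q : ℕ)
    (h : ∀ n r N : ℕ, 0 < N → r * (r + 3) + N = n / 2 →
      2 ^ (r * (r + 1) / 2) ≤ N ^ 2 * (T n * q + 1) ^ (2 * (T n / N))) :
    ∃ c : ℝ, 0 < c ∧ ∀ᶠ n : ℕ in Filter.atTop, c * (n : ℝ) ^ 2 / Real.log n ≤ T n := by
  refine ⟨1 / 4800, by norm_num, ?_⟩
  have hlog : ∀ᶠ n : ℕ in Filter.atTop, Real.log (n : ℝ) ≤ 1 / 800 * (n : ℝ) := by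
    have h1 := Real.isLittleO_log_id_atTop.def (c := 1 / 800) (by norm_num)
    have h2 := tendsto_natCast_atTop_atTop (R := ℝ).eventually h1
    filter_upwards [h2, Filter.eventually_ge_atTop 1] with n hn hn1
    have hn1' : (1 : ℝ) ≤ n := by exact_mod_cast hn1
    rw [Real.norm_of_nonneg (Real.log_nonneg hn1'), id, Real.norm_of_nonneg (by linarith)] at hn
    exact hn
  filter_upwards [hlog, Filter.eventually_ge_atTop 10000, Filter.eventually_ge_atTop (q + 1)]
    with n hln hn hq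
  by_contra hcon
  push Not at hcon
  have hnR : (10000 : ℝ) ≤ n := by exact_mod_cast hn
  have hn0 : (0 : ℝ) < n := by linarith
  have hL1 : 1 ≤ Real.log n := by
    rw [← Real.log_exp 1]
    apply Real.log_le_log (Real.exp_pos 1)
    have := Real.exp_one_lt_d9
    linarith
  have hL0 : 0 < Real.log n := by linarith
  obtain ⟨hf1, hf2⟩ := sqrt_facts n (Nat.sqrt n / 4) hn rfl
  set r := Nat.sqrt n / 4 with hr
  set N := n / 2 - r * (r + 3) with hN
  have hN4 : n / 4 ≤ N := by omega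
  have hNpos : 0 < N := by omega
  have hNn : N ≤ n := by omega
  have key := h n r N hNpos (by omega)
  -- real bounds
  have hTR : (T n : ℝ) * Real.log n < 1 / 4800 * (n : ℝ) ^ 2 := by
    rwa [lt_div_iff₀ hL0] at hcon
  have hTn2 : (T n : ℝ) < (n : ℝ) ^ 2 := by
    have h0 : (0 : ℝ) ≤ T n := Nat.cast_nonneg _
    have h2 : (0 : ℝ) < (n : ℝ) ^ 2 := by positivity
    nlinarith
  have hTn2' : T n < n ^ 2 := by exact_mod_cast hTn2
  have hTq : T n * q + 1 ≤ n ^ 3 := by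
    have h1 : T n * q ≤ n ^ 2 * (n - 1) := Nat.mul_le_mul hTn2'.le (by omega)
    have h2 : n ^ 2 * (n - 1) + n ^ 2 = n ^ 3 := by
      have : n - 1 + 1 = n := by omega
      calc n ^ 2 * (n - 1) + n ^ 2 = n ^ 2 * (n - 1 + 1) := by ring
        _ = n ^ 3 := by rw [this]; ring
    have h3 : 1 ≤ n ^ 2 := Nat.one_le_pow _ _ (by omega)
    omega
  have hlogTq : Real.log ((T n * q + 1 : ℕ) : ℝ) ≤ 3 * Real.log n := by
    rw [show (3 : ℝ) * Real.log n = ((3 : ℕ) : ℝ) * Real.log n by norm_num, ← Real.log_pow]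
    apply Real.log_le_log
    · exact_mod_cast Nat.succ_pos _
    · exact_mod_cast hTq
  have hlogTq0 : 0 ≤ Real.log ((T n * q + 1 : ℕ) : ℝ) := by
    apply Real.log_nonneg
    exact_mod_cast Nat.succ_le_succ (Nat.zero_le _)
  have hTN : ((T n / N : ℕ) : ℝ) ≤ 5 * (T n : ℝ) / n := by
    have h1 : ((T n / N : ℕ) : ℝ) ≤ (T n : ℝ) / N := Nat.cast_div_le
    have h2 : (n : ℝ) / 5 ≤ N := by
      have : n ≤ 5 * N := by omega
      have : (n : ℝ) ≤ 5 * N := by exact_mod_cast this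
      linarith
    refine h1.trans ?_
    rw [div_le_div_iff₀ (by linarith) hn0]
    have h0 : (0 : ℝ) ≤ T n := Nat.cast_nonneg _
    nlinarith
  have hkeyR : ((2 : ℝ) ^ (r * (r + 1) / 2)) ≤ (N : ℝ) ^ 2 *
      ((T n * q + 1 : ℕ) : ℝ) ^ (2 * (T n / N)) := by exact_mod_cast key
  have hlk := Real.log_le_log (by positivity) hkeyR
  have hNR : (0 : ℝ) < N := by exact_mod_cast hNpos
  rw [Real.log_mul (by positivity) (by positivity), Real.log_pow, Real.log_pow, Real.log_pow]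
    at hlk
  have heven : 2 * (r * (r + 1) / 2) = r * (r + 1) :=
    Nat.two_mul_div_two_of_even (Nat.even_mul_succ_self r)
  have hcast : ((r * (r + 1) / 2 : ℕ) : ℝ) = (r : ℝ) * (r + 1) / 2 := by
    have : (2 : ℝ) * ((r * (r + 1) / 2 : ℕ) : ℝ) = (r : ℝ) * (r + 1) := by exact_mod_cast heven
    linarith
  rw [hcast] at hlk
  have hlog2 : (0.69 : ℝ) < Real.log 2 := by
    have := Real.log_two_gt_d9
    linarith
  have hlogN : Real.log N ≤ Real.log n := by
    apply Real.log_le_log hNR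
    exact_mod_cast hNn
  have hA : ((2 * (T n / N) : ℕ) : ℝ) * Real.log ((T n * q + 1 : ℕ) : ℝ) ≤
      30 * ((T n : ℝ) * Real.log n) / n := by
    push_cast
    have h0 : (0 : ℝ) ≤ ((T n / N : ℕ) : ℝ) := Nat.cast_nonneg _
    calc 2 * ((T n / N : ℕ) : ℝ) * Real.log ((T n : ℝ) * q + 1)
        ≤ 2 * (5 * (T n : ℝ) / n) * (3 * Real.log n) := by
          apply mul_le_mul
          · linarith
          · exact_mod_cast hlogTq
          · exact_mod_cast hlogTq0
          · have : (0 : ℝ) ≤ T n := Nat.cast_nonneg _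
            positivity
      _ = 30 * ((T n : ℝ) * Real.log n) / n := by ring
  have hB : 30 * ((T n : ℝ) * Real.log n) / n ≤ n / 160 := by
    rw [div_le_iff₀ hn0]
    nlinarith
  have hC : (n : ℝ) / 64 * 0.69 ≤ (r : ℝ) * (r + 1) / 2 * Real.log 2 := by
    apply mul_le_mul hf2 hlog2.le (by norm_num)
    positivity
  push_cast at hlk hA
  linarith

end Pool.Agent.Helper17.OneTape
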