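import Pool.Agent.Helper17.OneTape.Asymp

set_option autoImplicit false

/-!
Packet LV3 for MP_34c247_lc: the asymptotics of the lower bound, with a number of states
which grows polynomially.
-/

open Filter

namespace Pool.Agent.Helper17.OneTape

theorem asymp' (T q : ℕ → ℕ) (d : ℕ) (hq : ∀ n, q n ≤ (n + 2) ^ d)
    (h : ∀ n r N : ℕ, 0 < N → r * (r + 3) + N = n / 2 →
      2 ^ (r * (r + 1) / 2) ≤ N ^ 2 * (T n * q n + 1) ^ (2 * (T n / N))) :
    ∃ c : ℝ, 0 < c ∧ ∀ᶠ n : ℕ in atTop, c * (n : ℝ) ^ 2 / Real.log n ≤ T n := by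
  have hD0 : (0 : ℝ) < 2 * (d : ℝ) + 2 := by positivity
  refine ⟨1 / (1600 * (2 * (d : ℝ) + 2)), by positivity, ?_⟩
  have hlog : ∀ᶠ n : ℕ in Filter.atTop, Real.log (n : ℝ) ≤ 1 / 800 * (n : ℝ) := by
    have h1 := Real.isLittleO_log_id_atTop.def (c := 1 / 800) (by norm_num)
    have h2 := tendsto_natCast_atTop_atTop (R := ℝ).eventually h1
    filter_upwards [h2, Filter.eventually_ge_atTop 1] with n hn hn1
    have hn1' : (1 : ℝ) ≤ n := by exact_mod_cast hn1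
    rw [Real.norm_of_nonneg (Real.log_nonneg hn1'), id, Real.norm_of_nonneg (by linarith)] at hn
    exact hn
  filter_upwards [hlog, Filter.eventually_ge_atTop 10000] with n hln hn
  by_contra hcon
  push Not at hcon
  have hnR : (10000 : ℝ) ≤ n := by exact_mod_cast hn
  have hn0 : (0 : ℝ) < n := by linarith
  have hL1 : 1 ≤ Real.log n := by
    rw [← Real.log_exp 1]
    apply Real.log_le_log (Real.exp_pos 1)
    have := Real.exp_one_lt_d9
    linarith
  have hL0 : 0 < Real.log n := by linarith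
  obtain ⟨hf1, hf2⟩ := sqrt_facts n (Nat.sqrt n / 4) hn rfl
  set r := Nat.sqrt n / 4 with hr
  set N := n / 2 - r * (r + 3) with hN
  have hN4 : n / 4 ≤ N := by omega
  have hNpos : 0 < N := by omega
  have hNn : N ≤ n := by omega
  have key := h n r N hNpos (by omega)
  -- real bounds
  have hTR : (T n : ℝ) * Real.log n < 1 / (1600 * (2 * (d : ℝ) + 2)) * (n : ℝ) ^ 2 := by
    rwa [lt_div_iff₀ hL0] at hcon
  have hc1 : 1 / (1600 * (2 * (d : ℝ) + 2)) ≤ 1 := by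
    rw [div_le_one (by positivity)]
    have : (0 : ℝ) ≤ d := Nat.cast_nonneg _
    linarith
  have hTn2 : (T n : ℝ) < (n : ℝ) ^ 2 := by
    have h0 : (0 : ℝ) ≤ T n := Nat.cast_nonneg _
    have h2 : (0 : ℝ) < (n : ℝ) ^ 2 := by positivity
    nlinarith
  have hTn2' : T n < n ^ 2 := by exact_mod_cast hTn2
  have hqn : q n ≤ n ^ (2 * d) := by
    refine (hq n).trans ?_
    rw [pow_mul]
    apply Nat.pow_le_pow_left
    nlinarith
  have hTq : T n * q n + 1 ≤ n ^ (2 * d + 2) := by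
    have h1 : T n * q n ≤ (n ^ 2 - 1) * n ^ (2 * d) := Nat.mul_le_mul (by omega) hqn
    have h3 : 1 ≤ n ^ 2 := Nat.one_le_pow _ _ (by omega)
    have h4 : 1 ≤ n ^ (2 * d) := Nat.one_le_pow _ _ (by omega)
    have h2 : (n ^ 2 - 1) * n ^ (2 * d) + n ^ (2 * d) = n ^ (2 * d + 2) := by
      have e : n ^ 2 - 1 + 1 = n ^ 2 := by omega
      calc (n ^ 2 - 1) * n ^ (2 * d) + n ^ (2 * d) = (n ^ 2 - 1 + 1) * n ^ (2 * d) := by ring
        _ = n ^ (2 * d + 2) := by rw [e]; ring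
    omega
  have hlogTq : Real.log ((T n * q n + 1 : ℕ) : ℝ) ≤ (2 * (d : ℝ) + 2) * Real.log n := by
    rw [show (2 * (d : ℝ) + 2) * Real.log n = ((2 * d + 2 : ℕ) : ℝ) * Real.log n by
      push_cast; ring, ← Real.log_pow]
    apply Real.log_le_log
    · exact_mod_cast Nat.succ_pos _
    · exact_mod_cast hTq
  have hlogTq0 : 0 ≤ Real.log ((T n * q n + 1 : ℕ) : ℝ) := by
    apply Real.log_nonneg
    exact_mod_cast Nat.succ_le_succ (Nat.zero_le _)
  have hTN : ((T n / N : ℕ) : ℝ) ≤ 5 * (T n : ℝ) / n := by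
    have h1 : ((T n / N : ℕ) : ℝ) ≤ (T n : ℝ) / N := Nat.cast_div_le
    have h2 : (n : ℝ) / 5 ≤ N := by
      have : n ≤ 5 * N := by omega
      have : (n : ℝ) ≤ 5 * N := by exact_mod_cast this
      linarith
    refine h1.trans ?_
    rw [div_le_div_iff₀ (by linarith) hn0]
    have h0 : (0 : ℝ) ≤ T n := Nat.cast_nonneg _
    nlinarith
  have hkeyR : ((2 : ℝ) ^ (r * (r + 1) / 2)) ≤ (N : ℝ) ^ 2 *
      ((T n * q n + 1 : ℕ) : ℝ) ^ (2 * (T n / N)) := by exact_mod_cast key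
  have hlk := Real.log_le_log (by positivity) hkeyR
  have hNR : (0 : ℝ) < N := by exact_mod_cast hNpos
  rw [Real.log_mul (by positivity) (by positivity), Real.log_pow, Real.log_pow, Real.log_pow]
    at hlk
  have heven : 2 * (r * (r + 1) / 2) = r * (r + 1) :=
    Nat.two_mul_div_two_of_even (Nat.even_mul_succ_self r)
  have hcast : ((r * (r + 1) / 2 : ℕ) : ℝ) = (r : ℝ) * (r + 1) / 2 := by
    have : (2 : ℝ) * ((r * (r + 1) / 2 : ℕ) : ℝ) = (r : ℝ) * (r + 1) := by exact_mod_cast heven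
    linarith
  rw [hcast] at hlk
  have hlog2 : (0.69 : ℝ) < Real.log 2 := by
    have := Real.log_two_gt_d9
    linarith
  have hlogN : Real.log N ≤ Real.log n := by
    apply Real.log_le_log hNR
    exact_mod_cast hNn
  have hT0 : (0 : ℝ) ≤ T n := Nat.cast_nonneg _
  have hA : ((2 * (T n / N) : ℕ) : ℝ) * Real.log ((T n * q n + 1 : ℕ) : ℝ) ≤
      10 * (2 * (d : ℝ) + 2) * ((T n : ℝ) * Real.log n) / n := by
    have h0 : (0 : ℝ) ≤ ((T n / N : ℕ) : ℝ) := Nat.cast_nonneg _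
    have e : ((2 * (T n / N) : ℕ) : ℝ) = 2 * ((T n / N : ℕ) : ℝ) := by push_cast; ring
    rw [e]
    calc 2 * ((T n / N : ℕ) : ℝ) * Real.log ((T n * q n + 1 : ℕ) : ℝ)
        ≤ 2 * (5 * (T n : ℝ) / n) * ((2 * (d : ℝ) + 2) * Real.log n) := by
          apply mul_le_mul _ hlogTq hlogTq0 (by positivity)
          linarith
      _ = 10 * (2 * (d : ℝ) + 2) * ((T n : ℝ) * Real.log n) / n := by ring
  have hB : 10 * (2 * (d : ℝ) + 2) * ((T n : ℝ) * Real.log n) / n ≤ n / 160 := by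
    rw [div_le_iff₀ hn0]
    have h1 : (2 * (d : ℝ) + 2) * ((T n : ℝ) * Real.log n) ≤
        (2 * (d : ℝ) + 2) * (1 / (1600 * (2 * (d : ℝ) + 2)) * (n : ℝ) ^ 2) :=
      mul_le_mul_of_nonneg_left hTR.le hD0.le
    have h2 : (2 * (d : ℝ) + 2) * (1 / (1600 * (2 * (d : ℝ) + 2)) * (n : ℝ) ^ 2) =
        (n : ℝ) ^ 2 / 1600 := by
      field_simp
    rw [h2] at h1
    nlinarith
  have hC : (n : ℝ) / 64 * 0.69 ≤ (r : ℝ) * (r + 1) / 2 * Real.log 2 := by
    apply mul_le_mul hf2 hlog2.le (by norm_num)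
    positivity
  have e2 : (((2 : ℕ) : ℝ)) = 2 := by norm_num
  rw [e2] at hlk
  linarith

end Pool.Agent.Helper17.OneTape
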