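import Pool.Agent.Helper65.OneTape.PhaseDefs

/-! Packet LV9 for MP_34c247_lc: the final checking phase. -/

namespace Pool.Agent.Helper65.OneTape

namespace CkRunAux

/-- all rows are visited and completely marked -/
def Full (V : List Row) : Prop := ∀ R ∈ V, R.vis = true ∧ R.xs.length ≤ R.k

theorem Full.snoc {V : List Row} (h : Full V) {R : Row} (h1 : R.vis = true)
    (h2 : R.xs.length ≤ R.k) : Full (V ++ [R]) := by
  intro R' hR'
  rcases List.mem_append.1 hR' with h3 | h3
  · exact h R' h3
  · rw [List.mem_singleton.1 h3]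
    exact ⟨h1, h2⟩

theorem scan_ck_lt (VX WX VY WY : List Row) (cx cy : Row) (trX trY : List Cell)
    (hX' : IsBits trX) (hY' : IsBits trY) (hVX : Full VX) (hVY : Full VY)
    (hx : cx.k < cx.xs.length) (hy : cy.k < cy.xs.length) (hv : cy.vis = false) :
    scan ft sck (tp (VX ++ cx :: WX) (VY ++ cy :: WY) trX trY) =
      (.ck true 2 (some cx.xs[cx.k]) (decide (some cx.xs[cx.k] ≠ some cy.xs[cy.k])) cy.diff,
        tp (VX ++ { cx with k := cx.k + 1 } :: WX) (VY ++ { cy with k := cy.k + 1 } :: WY)
          trX trY) := by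
  unfold tp
  rw [scan_append, scan_append, scan_ck_X_lt _ _ _ _ _ _ hVX hx, scan_ck_tr _ _ _ _ _ hX']
  simp only [scan, ft, fck]
  rw [scan_append, scan_ck_Y_lt _ _ _ _ _ _ hVY hy hv, scan_ck_tr _ _ _ _ _ hY']

theorem scan_ck_ge (VX WX VY WY : List Row) (cx cy : Row) (trX trY : List Cell)
    (hX' : IsBits trX) (hY' : IsBits trY) (hVX : Full VX) (hVY : Full VY)
    (hx : cx.xs.length ≤ cx.k) (hxv : cx.vis = false) (hy : cy.xs.length ≤ cy.k)
    (hv : cy.vis = false) :
    scan ft sck (tp (VX ++ cx :: WX) (VY ++ cy :: WY) trX trY) =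
      (.ck true 2 none false cy.diff, tp (VX ++ cx :: WX) (VY ++ cy :: WY) trX trY) := by
  unfold tp
  rw [scan_append, scan_append, scan_ck_X_ge _ _ _ _ _ _ hVX hx hxv, scan_ck_tr _ _ _ _ _ hX']
  simp only [scan, ft, fck]
  rw [scan_append, scan_ck_Y_ge _ _ _ _ _ _ hVY hy hv, scan_ck_tr _ _ _ _ _ hY']

theorem scan_mv (VX WX VY WY : List Row) (cx cy : Row) (trX trY : List Cell)
    (hX' : IsBits trX) (hY' : IsBits trY) (hVX : Full VX) (hVY : Full VY)
    (hxv : cx.vis = false) (hWX : ∀ R ∈ WX, R.vis = false)
    (hv : cy.vis = false) (hWY : ∀ R ∈ WY, R.vis = false) :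
    ∃ trX' trY' par, IsBits trX' ∧ IsBits trY' ∧
    scan ft (smv false) (tp (VX ++ cx :: WX) (VY ++ cy :: WY) trX trY) =
      (.mv false true false par (decide (WY ≠ [])),
        tp (VX ++ mvRow false false (false, false) cx :: WX)
          (VY ++ mvRow false true par cy :: WY) trX' trY') := by
  obtain ⟨trX', hx1, hx2⟩ := scan_mv_tr false false false cx.p false trX hX'
  obtain ⟨trY', hy1, hy2⟩ := scan_mv_tr false true false cx.p (decide (WY ≠ [])) trY hY'
  refine ⟨trX', trY', cx.p, hx1, hy1, ?_⟩
  unfold tp
  rw [scan_append, scan_append, scan_mv_reg _ _ _ _ _ _ _ hVX hxv hWX]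
  simp only [Bool.false_eq_true, if_false, Bool.false_and, Bool.or_false]
  rw [hx2]
  simp only [scan, ft, fmv]
  rw [scan_append, scan_mv_reg _ _ _ _ _ _ _ hVY hv hWY]
  simp only [if_true, Bool.true_and, Bool.false_or]
  rw [hy2]

/-- the inner loop: comparison of the two current rows -/
theorem inner (xs ys : List Bool) (hl : xs.length = ys.length) (px py : Bool × Bool) (lv : Bool)
    (VX WX VY WY : List Row) (trX trY : List Cell) (hX' : IsBits trX) (hY' : IsBits trY)
    (hVX : Full VX) (hVY : Full VY) (i : ℕ) :
    ∀ (κ : ℕ → Bool × Bool) (j : ℕ), j + i = xs.length →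
      (∀ t (h1 : t < xs.length) (h2 : t < ys.length), t < j → xs[t] = ys[t]) →
      ∃ m ≤ i + 1, sweeps ft fe κ sck (tp (VX ++ (⟨xs, j, px, false, false, lv⟩ : Row) :: WX)
        (VY ++ (⟨ys, j, py, false, false, true⟩ : Row) :: WY) trX trY) m =
          Sum.inr (if xs = ys then some true else none) := by
  induction i with
  | zero =>
    intro κ j hj heq
    refine ⟨1, le_rfl, ?_⟩
    have hxy : xs = ys := by
      apply List.ext_getElem hl
      intro t h1 h2
      exact heq t h1 h2 (by omega)
    rw [if_pos hxy]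
    apply sweeps_one_inr
    rw [scan_ck_ge VX WX VY WY _ _ trX trY hX' hY' hVX hVY (by simp; omega) rfl
      (by simp; omega) rfl]
    simp [fe]
  | succ i ih =>
    intro κ j hj heq
    have hx : j < xs.length := by omega
    have hy : j < ys.length := by omega
    have hsc := scan_ck_lt VX WX VY WY (⟨xs, j, px, false, false, lv⟩ : Row)
      (⟨ys, j, py, false, false, true⟩ : Row) trX trY hX' hY' hVX hVY hx hy rfl
    by_cases hc : xs[j] = ys[j]
    · obtain ⟨m, hm, hrun⟩ := ih (fun i => κ (1 + i)) (j + 1) (by omega) (by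
        intro t h1 h2 ht
        rcases Nat.lt_succ_iff_lt_or_eq.1 ht with h3 | h3
        · exact heq t h1 h2 h3
        · subst h3; exact hc)
      refine ⟨1 + m, by omega, ?_⟩
      rw [sweeps_add ft fe κ sck _ 1 m sck _ (sweeps_one_inl ft fe κ sck _ sck (by
        rw [hsc]; simp [fe, hc]))]
      rw [hsc]
      exact hrun
    · refine ⟨1, by omega, ?_⟩
      have hne : xs ≠ ys := by
        rintro rfl
        exact hc rfl
      rw [if_neg hne]
      apply sweeps_one_inr
      rw [hsc]
      simp [fe, hc]

theorem outer (K : ℕ) (X : List (List Bool × Bool)) :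
    ∀ (κ : ℕ → Bool × Bool) (Y : List (List Bool × Bool)) (VX VY : List Row)
      (trX trY : List Cell), IsBits trX → IsBits trY → Full VX → Full VY →
      X.map (fun r => r.1.length) = Y.map (fun r => r.1.length) → X ≠ [] →
      (∀ r ∈ X, r.1.length ≤ K) →
      ∃ m ≤ 2 * X.length + K + 1,
        sweeps ft fe κ sck (tp (VX ++ bX [] X) (VY ++ bY [] Y) trX trY) m =
          Sum.inr (finalOut (X.map Prod.fst) Y) := by
  induction X with
  | nil => intro κ Y VX VY trX trY _ _ _ _ _ hne; exact absurd rfl hne
  | cons x X ih =>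
    intro κ Y VX VY trX trY hX' hY' hVX hVY hlen _ hK
    obtain ⟨xs, lv⟩ := x
    cases Y with
    | nil => simp at hlen
    | cons y Y =>
      obtain ⟨ys, d⟩ := y
      simp only [List.map_cons, List.cons.injEq] at hlen
      obtain ⟨hl, hlen⟩ := hlen
      have hKx : xs.length ≤ K := hK (xs, lv) (by simp)
      have eX : bX [] ((xs, lv) :: X) =
          (⟨xs, 0, dot [] xs, false, false, lv⟩ : Row) :: bX [] X := rfl
      have eY : bY [] ((ys, d) :: Y) =
          (⟨ys, 0, dot [] ys, false, d, true⟩ : Row) :: bY [] Y := rfl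
      have hvX : ∀ R ∈ bX [] X, R.vis = false := by
        intro R hR
        simp only [bX, List.mem_map] at hR
        obtain ⟨r, _, rfl⟩ := hR
        rfl
      have hvY : ∀ R ∈ bY [] Y, R.vis = false := by
        intro R hR
        simp only [bY, List.mem_map] at hR
        obtain ⟨r, _, rfl⟩ := hR
        rfl
      rw [eX, eY]
      cases d with
      | false =>
        obtain ⟨m, hm, hrun⟩ := inner xs ys hl (dot [] xs) (dot [] ys) lv VX (bX [] X) VY
          (bY [] Y) trX trY hX' hY' hVX hVY xs.length κ 0 (by omega) (by intro t _ _ ht; omega)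
        refine ⟨m, by simp only [List.length_cons]; omega, ?_⟩
        rw [hrun]
        simp [finalOut]
      | true =>
        -- first sweep
        have step1 : ∃ j, sweeps ft fe κ sck
            (tp (VX ++ (⟨xs, 0, dot [] xs, false, false, lv⟩ : Row) :: bX [] X)
              (VY ++ (⟨ys, 0, dot [] ys, false, true, true⟩ : Row) :: bY [] Y) trX trY) 1 =
            Sum.inl (smv false,
              tp (VX ++ (⟨xs, j, dot [] xs, false, false, lv⟩ : Row) :: bX [] X)
                (VY ++ (⟨ys, j, dot [] ys, false, true, true⟩ : Row) :: bY [] Y) trX trY) := by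
          by_cases h0 : xs.length = 0
          · refine ⟨0, ?_⟩
            have hsc := scan_ck_ge VX (bX [] X) VY (bY [] Y)
              (⟨xs, 0, dot [] xs, false, false, lv⟩ : Row)
              (⟨ys, 0, dot [] ys, false, true, true⟩ : Row) trX trY hX' hY' hVX hVY
              (by simp [h0]) rfl (by simp; rw [← List.length_eq_zero_iff]; omega) rfl
            rw [sweeps_one_inl ft fe κ sck _ (smv false) (by rw [hsc]; simp [fe]), hsc]
          · refine ⟨1, ?_⟩
            have hsc := scan_ck_lt VX (bX [] X) VY (bY [] Y)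
              (⟨xs, 0, dot [] xs, false, false, lv⟩ : Row)
              (⟨ys, 0, dot [] ys, false, true, true⟩ : Row) trX trY hX' hY' hVX hVY
              (by simp only; omega) (by simp only; omega) rfl
            rw [sweeps_one_inl ft fe κ sck _ (smv false) (by rw [hsc]; simp [fe]), hsc]
        obtain ⟨j, hj⟩ := step1
        obtain ⟨trX', trY', par, ht1, ht2, hmv⟩ := scan_mv VX (bX [] X) VY (bY [] Y)
          (⟨xs, j, dot [] xs, false, false, lv⟩ : Row)
          (⟨ys, j, dot [] ys, false, true, true⟩ : Row) trX trY hX' hY' hVX hVY rfl hvX rfl hvY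
        by_cases hYne : Y = []
        · subst hYne
          have hXe : X = [] := by simpa using hlen
          subst hXe
          refine ⟨1 + 1, by simp only [List.length_cons, List.length_nil]; omega, ?_⟩
          rw [sweeps_add ft fe κ sck _ 1 1 _ _ hj]
          rw [sweeps_one_inr ft fe _ (smv false) _ (some false) (by rw [hmv]; simp [fe, bY])]
          simp [finalOut]
        · have hXne : X ≠ [] := by
            rintro rfl
            apply hYne
            simpa using hlen.symm
          have hbY : bY [] Y ≠ [] := by simpa [bY] using hYne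
          obtain ⟨m, hm, hrun⟩ := ih (fun i => κ (1 + (1 + i))) Y
            (VX ++ [mvRow false false (false, false)
              (⟨xs, j, dot [] xs, false, false, lv⟩ : Row)])
            (VY ++ [mvRow false true par (⟨ys, j, dot [] ys, false, true, true⟩ : Row)])
            trX' trY' ht1 ht2 (hVX.snoc rfl (le_max_right _ _)) (hVY.snoc rfl (le_max_right _ _))
            hlen hXne (fun r hr => hK r (by simp [hr]))
          refine ⟨1 + (1 + m), by simp only [List.length_cons]; omega, ?_⟩
          rw [sweeps_add ft fe κ sck _ 1 (1 + m) _ _ hj]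
          rw [sweeps_add ft fe _ (smv false) _ 1 m sck _ (sweeps_one_inl ft fe _ (smv false) _
            sck (by rw [hmv]; simp [fe, hbY]))]
          rw [hmv]
          simp only [List.append_assoc, List.singleton_append] at hrun
          simp only [List.map_cons, finalOut, if_true]
          exact hrun

end CkRunAux

theorem ck_run (κ : ℕ → Bool × Bool) (X Y : List (List Bool × Bool)) (K : ℕ)
    (trX trY : List Cell) (hX' : IsBits trX) (hY' : IsBits trY)
    (hlen : X.map (fun r => r.1.length) = Y.map (fun r => r.1.length))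
    (hne : X ≠ []) (hK : ∀ r ∈ X, r.1.length ≤ K) :
    ∃ m ≤ 2 * X.length + K + 1,
      sweeps ft fe κ sck (tp (bX [] X) (bY [] Y) trX trY) m =
        Sum.inr (finalOut (X.map Prod.fst) Y) := by
  have h := CkRunAux.outer K X κ Y [] [] trX trY hX' hY' (by intro R hR; simp at hR)
    (by intro R hR; simp at hR) hlen hne hK
  simpa using h

end Pool.Agent.Helper65.OneTape
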